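import Pool.Agent.H68.AC.TargetsU
import Pool.Agent.H81.AC.PAR

/-!
# SETH for constant-depth circuits, module PARU: the parameters, uniformly in the depth
-/

namespace Pool.Agent.H36.AC

open Finset Filter Pool.Agent.H68.AC Pool.Agent.H81.AC

/-- The base 2 logarithm is eventually at most a small multiple of the square root. -/
theorem log_le_sqrt (c : ℝ) (hc : 0 < c) : ∀ᶠ n : ℕ in atTop, (Nat.log 2 n : ℝ) ≤ c * √(n : ℝ) := by
  have h0 := (isLittleO_log_rpow_atTop (show (0 : ℝ) < 1 / 2 by norm_num)).comp_tendsto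
    tendsto_natCast_atTop_atTop
  have h1 := h0.bound (show (0 : ℝ) < c * Real.log 2 by positivity)
  filter_upwards [h1, eventually_ge_atTop 1] with n hn hn1
  simp only [Function.comp, Real.norm_eq_abs] at hn
  have h2 : (2 : ℝ) ^ Nat.log 2 n ≤ n := by exact_mod_cast Nat.pow_log_le_self 2 (by omega)
  have h3 : (Nat.log 2 n : ℝ) * Real.log 2 ≤ Real.log n := by
    rw [← Real.log_pow]
    exact Real.log_le_log (by positivity) h2
  have h4 : Real.log n ≤ c * Real.log 2 * √(n : ℝ) := by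
    have := (le_abs_self _).trans hn
    rwa [abs_of_nonneg (Real.rpow_nonneg (Nat.cast_nonneg n) _), ← Real.sqrt_eq_rpow] at this
  have hl2 : 0 < Real.log 2 := Real.log_pos (by norm_num)
  by_contra hc2
  push Not at hc2
  nlinarith

/-- PARU: the parameters, uniformly in the depth `d ≤ √n`. -/
theorem paru : T_PARU := by
  intro ε hε hε1
  refine ⟨1 - ε / 4, by linarith, by linarith, fun c₀ hc₀ => ?_⟩
  obtain ⟨K0, hK0⟩ := exists_nat_ge (64 * c₀ / ε)
  refine ⟨6 * (K0 + 1) + 7, ?_⟩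
  obtain ⟨M, hM⟩ := exists_nat_ge (8 / ε)
  have hE3 : ∀ᶠ n : ℕ in atTop, 1 / ε ≤ (n : ℝ) := by
    exact tendsto_natCast_atTop_atTop.eventually_ge_atTop _
  filter_upwards [log_le_sqrt (ε / 396) (by positivity), eventually_ge_atTop (2 ^ (max 5 M)),
    hE3] with n hn1 hn4 hn5 d hd1 hdn
  set L := Nat.log 2 n with hL
  have hn0 : n ≠ 0 := by
    have : 0 < 2 ^ (max 5 M) := by positivity
    omega
  have hLM : max 5 M ≤ L := by
    rw [hL]
    exact Nat.le_log_of_pow_le (by norm_num) hn4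
  have hL5 : 5 ≤ L := (le_max_left _ _).trans hLM
  have hML : M ≤ L := (le_max_right _ _).trans hLM
  have hgn : 2 ^ L ≤ n := Nat.pow_log_le_self 2 hn0
  have hng : n < 2 ^ (L + 1) := Nat.lt_pow_succ_log_self (by norm_num) n
  have hgnR : (2 : ℝ) ^ L ≤ n := by exact_mod_cast hgn
  have hngR : (n : ℝ) < 2 * 2 ^ L := by
    have : (n : ℝ) < 2 ^ (L + 1) := by exact_mod_cast hng
    rw [pow_succ] at this; linarith
  have hnR : (0 : ℝ) < n := by exact_mod_cast Nat.pos_of_ne_zero hn0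
  have hn1' : (1 : ℝ) ≤ n := by exact_mod_cast Nat.pos_of_ne_zero hn0
  have hd1R : (1 : ℝ) ≤ d := by exact_mod_cast hd1
  set δ : ℝ := ε / (32 * (d + 1)) with hδ
  have hδ0 : 0 < δ := by positivity
  have hsq : (√(n : ℝ)) ^ 2 = n := Real.sq_sqrt hnR.le
  have hs1 : 1 ≤ √(n : ℝ) := by rw [Real.one_le_sqrt]; exact hn1'
  have hds : (d : ℝ) ≤ √(n : ℝ) := by
    apply Real.le_sqrt_of_sq_le
    exact_mod_cast hdn
  set S : ℝ := √(n : ℝ) with hS
  set k := n / (6 * L) with hk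
  have h6L : 0 < 6 * L := by omega
  have hkn : k * (6 * L) ≤ n := Nat.div_mul_le_self n (6 * L)
  have hnk : n < (k + 1) * (6 * L) := by
    have := Nat.lt_div_mul_add (a := n) h6L
    rw [add_mul, one_mul]; exact this
  have hnkR : (n : ℝ) < (k + 1) * (6 * L) := by exact_mod_cast hnk
  have h6LR : (0 : ℝ) < 6 * L := by exact_mod_cast h6L
  have hinv : 1 + 1 / δ ≤ 65 / ε * S := by
    have e0 : 1 / δ = 32 * (d + 1) / ε := by rw [hδ]; field_simp
    rw [e0]
    have e1 : 1 ≤ 1 / ε * S := by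
      have : 1 ≤ 1 / ε := by rw [le_div_iff₀ hε]; linarith
      nlinarith
    have e2 : 32 * ((d : ℝ) + 1) / ε ≤ 64 / ε * S := by
      rw [div_mul_eq_mul_div, div_le_div_iff_of_pos_right hε]
      linarith
    have e3 : 65 / ε * S = 1 / ε * S + 64 / ε * S := by ring
    linarith
  have hδk : 1 ≤ δ * k := by
    have e1 : (6 * L : ℝ) * (1 + 1 / δ) ≤ n := by
      calc (6 * L : ℝ) * (1 + 1 / δ) ≤ (6 * (ε / 396 * S)) * (65 / ε * S) := by
            apply mul_le_mul (by linarith) hinv (by positivity) (by positivity)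
        _ = 390 / 396 * S ^ 2 := by field_simp; norm_num
        _ ≤ n := by rw [hsq]; linarith
    have e2 : (6 * L : ℝ) * (1 + 1 / δ) < (k + 1) * (6 * L) := lt_of_le_of_lt e1 hnkR
    have e3 : 1 + 1 / δ < k + 1 := by
      by_contra hc
      push Not at hc
      nlinarith
    have e4 : 1 / δ < k := by linarith
    rw [div_lt_iff₀ hδ0] at e4
    linarith
  have hk1 : 1 ≤ k := by
    by_contra hc
    have : k = 0 := Nat.eq_zero_of_not_pos hc
    rw [this] at hδk
    norm_num at hδk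
  have hg2 : (32 : ℝ) ≤ 2 ^ L := by
    calc (32 : ℝ) = 2 ^ 5 := by norm_num
      _ ≤ 2 ^ L := pow_le_pow_right₀ (by norm_num) hL5
  have hg9 : (2 : ℝ) ≤ (2 ^ L) ^ 9 := by
    calc (2 : ℝ) ≤ 32 ^ 9 := by norm_num
      _ ≤ (2 ^ L) ^ 9 := pow_le_pow_left₀ (by norm_num) hg2 9
  have hp2 : 1 / ((2 : ℝ) ^ L) ^ 9 ≤ 1 / 2 := one_div_le_one_div_of_le (by norm_num) hg9
  obtain ⟨r, hr⟩ : ∃ r : ℕ, r = ⌈c₀ / δ⌉₊ := ⟨_, rfl⟩
  have hr1 : c₀ ≤ δ * r := by
    have : c₀ / δ ≤ r := by rw [hr]; exact Nat.le_ceil _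
    rw [div_le_iff₀ hδ0] at this
    linarith
  have hr2 : r ≤ (K0 + 1) * d := by
    have e0 : (r : ℝ) < c₀ / δ + 1 := by
      rw [hr]; exact Nat.ceil_lt_add_one (by positivity)
    have e1 : c₀ / δ ≤ K0 * d := by
      have : c₀ / δ = 32 * c₀ / ε * (d + 1) := by rw [hδ]; field_simp
      rw [this]
      calc 32 * c₀ / ε * ((d : ℝ) + 1) ≤ 32 * c₀ / ε * (d + d) := by gcongr
        _ = 64 * c₀ / ε * d := by ring
        _ ≤ K0 * d := by gcongr
    have e2 : (r : ℝ) < ((K0 * d + 1 : ℕ) : ℝ) := by push_cast; linarith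
    have e3 : r < K0 * d + 1 := by exact_mod_cast e2
    nlinarith
  refine ⟨k, 6 * L, 8 * n, r, δ, 1 / (2 ^ L) ^ 9, 1 / (2 ^ L) ^ 9 / (512 * n), hδ0, hr1, hk1,
    by omega, hkn, ?_, ?_, ?_, ?_, by omega, by positivity, hp2, by positivity, ?_, ?_, ?_⟩
  · calc k * (2 ^ (6 * L)) ^ (r + 1) ≤ n * (n ^ 6) ^ (r + 1) := by
          apply Nat.mul_le_mul
          · exact Nat.div_le_self _ _
          · apply Nat.pow_le_pow_left
            rw [mul_comm, pow_mul]
            exact Nat.pow_le_pow_left hgn 6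
      _ = n ^ (6 * (r + 1) + 1) := by ring
      _ ≤ n ^ ((6 * (K0 + 1) + 7) * d) := Nat.pow_le_pow_right (by omega) (by nlinarith)
  · have e1 : 6 * r ≤ 6 * ((K0 + 1) * d) := Nat.mul_le_mul_left 6 hr2
    have e2 : 6 * r + 6 + 1 ≤ (6 * (K0 + 1) + 7) * d := by nlinarith
    calc (r + 1) * (6 * L) + 1 ≤ (6 * r + 6 + 1) * L := by nlinarith
      _ ≤ (6 * (K0 + 1) + 7) * d * L := Nat.mul_le_mul_right L e2
  · rw [Nat.floor_lt (by have : (0:ℝ) ≤ k := Nat.cast_nonneg _; nlinarith)]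
    have : (0 : ℝ) < k := by exact_mod_cast hk1
    nlinarith
  · exact Nat.le_floor (by exact_mod_cast hδk)
  · have : 1 / ((2 : ℝ) ^ L) ^ 9 / (512 * n) ≤ 1 / ((2 : ℝ) ^ L) ^ 9 :=
      div_le_self (by positivity) (by nlinarith)
    linarith
  · push_cast
    apply le_of_eq
    field_simp
    norm_num
  · intro s hs
    refine par_core d ε hε hε1 n L k ⌊δ * k⌋₊ δ hδ hL5 ?_ hgnR hngR hk1 hkn hnk ?_ rfl s hs
    · exact hM.trans (by exact_mod_cast hML)
    · -- 6 L + 3 ≤ ε n / 2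
      have hLR : (5 : ℝ) ≤ L := by exact_mod_cast hL5
      have e1 : (L : ℝ) ≤ ε / 396 * S := hn1
      have e2 : S ≤ n := by nlinarith
      have e3 : (L : ℝ) ≤ ε / 396 * n := e1.trans (by gcongr)
      nlinarith

end Pool.Agent.H36.AC
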